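import Pool.Agent.D0H84.UR.Mp

/-! Project UR (helper96), module HM: mass and second moment of the heat kernel. -/

set_option autoImplicit false

open Filter Topology Set

namespace Pool.Agent.D0H84.UR

open Pool.Agent.D0H96.UR

/-- the two moves on `ℤ`, killing rate `r` -/
def SZ (r : ℝ) : Sys ℤ ℤ := ⟨fun s x => x + s, fun _ => {1, -1}, fun _ => r⟩

/-- the two moves on finite sets, killing rate `r` -/
def SF (r : ℝ) : Sys (Finset ℤ) ℤ := ⟨fun s F => F.map (Equiv.addRight s).toEmbedding, fun _ => {1, -1}, fun _ => r⟩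

theorem rhsZ (r : ℝ) (w : ℤ → ℝ) (x : ℤ) : rhs (SZ r) w x = w (x + 1) + w (x - 1) - r * w x := by
  unfold rhs SZ
  rw [Finset.sum_pair (by norm_num)]
  rfl

theorem rhsF (r : ℝ) (w : Finset ℤ → ℝ) (F : Finset ℤ) : rhs (SF r) w F =
    w (F.map (Equiv.addRight (1 : ℤ)).toEmbedding) + w (F.map (Equiv.addRight (-1 : ℤ)).toEmbedding) - r * w F := by
  unfold rhs SF
  rw [Finset.sum_pair (by norm_num)]

theorem growZ (r : ℝ) (hr : 0 ≤ r) : Grow (SZ r) (fun _ => 2) 2 where
  b0 := by norm_num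
  r0 := fun _ => hr
  phi0 := fun _ => by norm_num
  card := fun x => by
    have : ((SZ r).mv x).card = 2 := Finset.card_pair (by norm_num)
    rw [this]; norm_num
  drift := fun x => by
    have : ((SZ r).mv x).card = 2 := Finset.card_pair (by norm_num)
    have hr' : (SZ r).r x = r := rfl
    rw [Finset.sum_const, this, hr', nsmul_eq_mul]
    push_cast
    linarith

theorem growF (r : ℝ) (hr : 0 ≤ r) : Grow (SF r) (fun _ => 2) 2 where
  b0 := by norm_num
  r0 := fun _ => hr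
  phi0 := fun _ => by norm_num
  card := fun x => by
    have : ((SF r).mv x).card = 2 := Finset.card_pair (by norm_num)
    rw [this]; norm_num
  drift := fun x => by
    have : ((SF r).mv x).card = 2 := Finset.card_pair (by norm_num)
    have hr' : (SF r).r x = r := rfl
    rw [Finset.sum_const, this, hr', nsmul_eq_mul]
    push_cast
    linarith

theorem hk_nonneg (h : S_HK) (t : ℝ) (ht : 0 ≤ t) (k : ℤ) : 0 ≤ hk t k := by
  obtain ⟨h1, h2, h3, -, -⟩ := h
  have := t_MP ℤ ℤ (SZ 2) (fun _ => 2) 2 univ t 1 (fun s k => -hk s k) (growZ 2 (by norm_num))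
    (fun _ _ _ _ => mem_univ _) ht (fun x _ => fun s _ => (h1 s x).neg.continuousAt.continuousWithinAt)
    (fun x _ s _ => ⟨_, (h1 s x).neg, by rw [rhsZ]; linarith⟩)
    (fun x _ s hs => by
      have := abs_le.1 (h3 s x hs.1)
      linarith [this.1]) (fun x _ => by
        rw [h2]; split_ifs <;> norm_num) k (mem_univ _) t ⟨ht, le_refl _⟩
  linarith

theorem hk_sum (h : S_HK) (t : ℝ) (ht : 0 ≤ t) (F : Finset ℤ) : ∑ k ∈ F, hk t k ≤ 1 := by
  have hnn := hk_nonneg h
  obtain ⟨h1, h2, h3, -, -⟩ := h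
  have hder : ∀ (F : Finset ℤ) (s : ℝ), HasDerivAt (fun s => ∑ k ∈ F, hk s k - 1)
      (∑ k ∈ F, (hk s (k - 1) + hk s (k + 1) - 2 * hk s k)) s := by
    intro F s
    exact (HasDerivAt.fun_sum fun k _ => h1 s k).sub_const 1
  have := t_MP (Finset ℤ) ℤ (SF 2) (fun _ => 2) 2 {G | G.card = F.card} t F.card (fun s G => ∑ k ∈ G, hk s k - 1)
    (growF 2 (by norm_num))
    (fun G hG s _ => by
      show (G.map _).card = F.card
      rw [Finset.card_map]; exact hG) ht (fun G _ => fun s _ => (hder G s).continuousAt.continuousWithinAt)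
    (fun G _ s _ => ⟨_, hder G s, by
      rw [rhsF, Finset.sum_map, Finset.sum_map]
      simp only [Equiv.coe_toEmbedding, Equiv.coe_addRight]
      rw [Finset.sum_sub_distrib, Finset.sum_add_distrib, ← Finset.mul_sum]
      simp only [← sub_eq_add_neg]
      linarith⟩)
    (fun G hG s hs => by
      have h4 : ∑ k ∈ G, hk s k ≤ ∑ k ∈ G, (1 : ℝ) := Finset.sum_le_sum fun k _ => (abs_le.1 (h3 s k hs.1)).2
      rw [Finset.sum_const, nsmul_eq_mul, mul_one, show G.card = F.card from hG] at h4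
      linarith) (fun G _ => by
        simp only [h2]
        rw [Finset.sum_ite_eq']
        split_ifs <;> norm_num) F (rfl : F.card = F.card) t ⟨ht, le_refl _⟩
  linarith

theorem hk_mass (h : S_HK) (t : ℝ) (ht : 0 ≤ t) (m : ℕ) (hm : 0 < m) :
    1 - 2 * t / (m : ℝ) ^ 2 ≤ ∑ k ∈ Finset.Icc (-(m : ℤ)) m, hk t k := by
  have hnn := hk_nonneg h
  obtain ⟨h1, h2, h3, -, -⟩ := h
  have hm' : (0 : ℝ) < (m : ℝ) := by exact_mod_cast hm
  have hder : ∀ (x : ℤ) (s : ℝ), HasDerivAt
      (fun s => 1 - ∑ k ∈ Finset.Icc (-(m : ℤ)) m, hk s (k - x) - ((x : ℝ) ^ 2 + 2 * s) / (m : ℝ) ^ 2)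
      (-(∑ k ∈ Finset.Icc (-(m : ℤ)) m, (hk s (k - x - 1) + hk s (k - x + 1) - 2 * hk s (k - x))) -
        2 / (m : ℝ) ^ 2) s := by
    intro x s
    have e1 : HasDerivAt (fun s : ℝ => ((x : ℝ) ^ 2 + 2 * s) / (m : ℝ) ^ 2) (2 / (m : ℝ) ^ 2) s := by
      have := (((hasDerivAt_id s).const_mul 2).const_add ((x : ℝ) ^ 2)).div_const ((m : ℝ) ^ 2)
      simpa using this
    have e2 := (HasDerivAt.fun_sum (u := Finset.Icc (-(m : ℤ)) m) (A := fun k s => hk s (k - x))
      fun k _ => h1 s (k - x)).const_sub 1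
    exact e2.sub e1
  have := t_MP ℤ ℤ (SZ 2) (fun _ => 2) 2 univ t 1
    (fun s x => 1 - ∑ k ∈ Finset.Icc (-(m : ℤ)) m, hk s (k - x) - ((x : ℝ) ^ 2 + 2 * s) / (m : ℝ) ^ 2)
    (growZ 2 (by norm_num))
    (fun _ _ _ _ => mem_univ _) ht (fun x _ => fun s _ => (hder x s).continuousAt.continuousWithinAt)
    (fun x _ s _ => ⟨_, hder x s, by
      rw [rhsZ]
      apply le_of_eq
      have e1 : ∀ k : ℤ, k - x - 1 = k - (x + 1) := fun k => by ring
      have e2 : ∀ k : ℤ, k - x + 1 = k - (x - 1) := fun k => by ring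
      simp only [e1, e2]
      rw [Finset.sum_sub_distrib, Finset.sum_add_distrib, ← Finset.mul_sum]
      push_cast
      field_simp
      ring⟩)
    (fun x _ s hs => by
      have h4 : 0 ≤ ∑ k ∈ Finset.Icc (-(m : ℤ)) m, hk s (k - x) := Finset.sum_nonneg fun k _ => hnn s hs.1 _
      have h5 : 0 ≤ ((x : ℝ) ^ 2 + 2 * s) / (m : ℝ) ^ 2 := by
        have := hs.1
        positivity
      linarith) (fun x _ => by
        simp only [h2, mul_zero, add_zero]
        have h6 : ∀ k : ℤ, (k - x = 0) ↔ (x = k) := fun k => by omega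
        simp only [h6]
        rw [Finset.sum_ite_eq]
        split_ifs with hx
        · have : 0 ≤ (x : ℝ) ^ 2 / (m : ℝ) ^ 2 := by positivity
          linarith
        · rw [Finset.mem_Icc, ← abs_le] at hx
          push Not at hx
          have h7 : (m : ℝ) < |(x : ℝ)| := by
            have : ((m : ℤ) : ℝ) < ((|x| : ℤ) : ℝ) := by exact_mod_cast hx
            rw [Int.cast_abs] at this
            exact_mod_cast this
          have h8 : (m : ℝ) ^ 2 ≤ (x : ℝ) ^ 2 := by
            rw [← sq_abs (x : ℝ)]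
            nlinarith
          have : 1 ≤ (x : ℝ) ^ 2 / (m : ℝ) ^ 2 := by
            rw [le_div_iff₀ (by positivity)]; linarith
          linarith) 0 (mem_univ _) t ⟨ht, le_refl _⟩
  simp only [sub_zero, Int.cast_zero] at this
  have e : ((0 : ℝ) ^ 2 + 2 * t) / (m : ℝ) ^ 2 = 2 * t / (m : ℝ) ^ 2 := by ring
  rw [e] at this
  linarith

theorem t_HM : S_HK → S_HM := fun h t ht => ⟨hk_nonneg h t ht, hk_sum h t ht, hk_mass h t ht⟩

end Pool.Agent.D0H84.UR
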