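import Pool.Agent.D0H96.UR.Stm

/-! Project UR (helper96), module MP: the maximum principle. -/

set_option autoImplicit false

open Filter Topology Set

namespace Pool.Agent.D0H84.UR

open Pool.Agent.D0H96.UR

theorem t_MP : S_MP := by
  intro X σ S φ b I T B w hG hI hT hc hd hB h0
  obtain ⟨B', hB'⟩ : ∃ B' : ℝ, B' = max B 0 := ⟨_, rfl⟩
  have hB0 : 0 ≤ B' := by rw [hB']; exact le_max_right _ _
  have hBB : B ≤ B' := by rw [hB']; exact le_max_left _ _
  have key : ∀ M : ℝ, 0 < M → ∀ n : ℕ, ∀ x ∈ I, ∀ t ∈ Icc 0 T,
      w t x ≤ B' * (Real.exp (b * t) * φ x / M + Real.exp (2 * M * t) * (1 / 2) ^ n) := by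
    intro M hM n
    induction n with
    | zero =>
      intro x hx t ht
      have h1 : 1 ≤ Real.exp (2 * M * t) := Real.one_le_exp (by have := ht.1; positivity)
      have h2 : 0 ≤ Real.exp (b * t) * φ x / M := div_nonneg (mul_nonneg (Real.exp_pos _).le (hG.phi0 x)) hM.le
      calc w t x ≤ B := hB x hx t ht
        _ ≤ B' * 1 := by rw [mul_one]; exact hBB
        _ ≤ _ := mul_le_mul_of_nonneg_left (by rw [pow_zero, mul_one]; linarith) hB0
    | succ n ih =>
      intro x hx t ht
      by_cases hφ : M ≤ φ x
      · have h1 : 1 ≤ Real.exp (b * t) := Real.one_le_exp (mul_nonneg hG.b0 ht.1)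
        have h2 : 1 ≤ Real.exp (b * t) * φ x / M := by
          rw [le_div_iff₀ hM, one_mul]
          nlinarith [hG.phi0 x]
        have h3 : 0 ≤ Real.exp (2 * M * t) * (1 / 2) ^ (n + 1) := by positivity
        calc w t x ≤ B := hB x hx t ht
          _ ≤ B' * 1 := by rw [mul_one]; exact hBB
          _ ≤ _ := mul_le_mul_of_nonneg_left (by linarith) hB0
      · push Not at hφ
        -- the comparison function
        have hz : ∀ t : ℝ, HasDerivAt (fun t => B' * (Real.exp (b * t) * φ x / M +
            Real.exp (2 * M * t) * (1 / 2) ^ (n + 1)))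
            (B' * (b * Real.exp (b * t) * φ x / M + 2 * M * Real.exp (2 * M * t) * (1 / 2) ^ (n + 1))) t := by
          intro t
          have e1 : HasDerivAt (fun t : ℝ => Real.exp (b * t)) (b * Real.exp (b * t)) t := by
            have := ((hasDerivAt_id t).const_mul b).exp
            simp only [id, mul_one] at this
            rw [mul_comm b]; exact this
          have e2 : HasDerivAt (fun t : ℝ => Real.exp (2 * M * t)) (2 * M * Real.exp (2 * M * t)) t := by
            have := ((hasDerivAt_id t).const_mul (2 * M)).exp
            simp only [id, mul_one] at this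
            rw [mul_comm (2 * M)]; exact this
          exact (((e1.mul_const (φ x)).div_const M).add (e2.mul_const _)).const_mul B'
        set y : ℝ → ℝ := fun t => w t x - B' * (Real.exp (b * t) * φ x / M +
            Real.exp (2 * M * t) * (1 / 2) ^ (n + 1)) with hy
        have hyc : ContinuousOn y (Icc 0 T) := (hc x hx).sub (fun t _ => (hz t).continuousAt.continuousWithinAt)
        have hexp : ∀ t : ℝ, HasDerivAt (fun t : ℝ => Real.exp (S.r x * t)) (S.r x * Real.exp (S.r x * t)) t := by
          intro t
          have := ((hasDerivAt_id t).const_mul (S.r x)).exp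
          simp only [id, mul_one] at this
          rw [mul_comm (S.r x)]; exact this
        have hyd : ∀ t ∈ Ioo 0 T, ∃ d, HasDerivAt y d t ∧ d ≤ -(S.r x * y t) := by
          intro t ht
          obtain ⟨d, hd1, hd2⟩ := hd x hx t ht
          refine ⟨_, hd1.sub (hz t), ?_⟩
          have ht' : t ∈ Icc 0 T := ⟨ht.1.le, ht.2.le⟩
          have h1 : ∑ s ∈ S.mv x, w t (S.act s x) ≤ ∑ s ∈ S.mv x,
              B' * (Real.exp (b * t) * φ (S.act s x) / M + Real.exp (2 * M * t) * (1 / 2) ^ n) :=
            Finset.sum_le_sum fun s hs => ih _ (hI x hx s hs) t ht'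
          have h2 : ∑ s ∈ S.mv x,
              B' * (Real.exp (b * t) * φ (S.act s x) / M + Real.exp (2 * M * t) * (1 / 2) ^ n) =
              B' * (Real.exp (b * t) * (∑ s ∈ S.mv x, φ (S.act s x)) / M +
                ((S.mv x).card : ℝ) * (Real.exp (2 * M * t) * (1 / 2) ^ n)) := by
            rw [← Finset.mul_sum, Finset.sum_add_distrib, Finset.sum_const, nsmul_eq_mul, Finset.mul_sum,
              Finset.sum_div]
          have h3 : Real.exp (b * t) * (∑ s ∈ S.mv x, φ (S.act s x)) / M ≤
              Real.exp (b * t) * ((S.r x + b) * φ x) / M := by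
            apply div_le_div_of_nonneg_right _ hM.le
            exact mul_le_mul_of_nonneg_left (hG.drift x) (Real.exp_pos _).le
          have h4 : ((S.mv x).card : ℝ) * (Real.exp (2 * M * t) * (1 / 2) ^ n) ≤
              M * (Real.exp (2 * M * t) * (1 / 2) ^ n) := by
            apply mul_le_mul_of_nonneg_right _ (by positivity)
            exact (hG.card x).trans hφ.le
          have h5 : ∑ s ∈ S.mv x, w t (S.act s x) ≤ B' * (Real.exp (b * t) * ((S.r x + b) * φ x) / M +
              M * (Real.exp (2 * M * t) * (1 / 2) ^ n)) := by
            rw [h2] at h1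
            exact h1.trans (mul_le_mul_of_nonneg_left (add_le_add h3 h4) hB0)
          have h6 : 0 ≤ S.r x * (B' * (Real.exp (2 * M * t) * (1 / 2) ^ (n + 1))) := by
            have := hG.r0 x
            positivity
          have e0 : (1 / 2 : ℝ) ^ (n + 1) = (1 / 2) ^ n / 2 := by rw [pow_succ]; ring
          unfold rhs at hd2
          simp only [hy]
          rw [e0] at h6 ⊢
          have h7 : Real.exp (b * t) * ((S.r x + b) * φ x) / M = S.r x * (Real.exp (b * t) * φ x / M) +
            b * Real.exp (b * t) * φ x / M := by ring
          rw [h7] at h5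
          nlinarith
        have hanti : AntitoneOn (fun t => Real.exp (S.r x * t) * y t) (Icc 0 T) := by
          apply antitoneOn_of_deriv_nonpos (convex_Icc 0 T)
          · have : ContinuousOn (fun t : ℝ => Real.exp (S.r x * t)) (Icc 0 T) :=
              fun t _ => (hexp t).continuousAt.continuousWithinAt
            exact this.mul hyc
          · intro t ht
            rw [interior_Icc] at ht
            obtain ⟨d, hd1, -⟩ := hyd t ht
            exact ((hexp t).mul hd1).differentiableAt.differentiableWithinAt
          · intro t ht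
            rw [interior_Icc] at ht
            obtain ⟨d, hd1, hd2⟩ := hyd t ht
            have hdd : HasDerivAt (fun t => Real.exp (S.r x * t) * y t)
              (S.r x * Real.exp (S.r x * t) * y t + Real.exp (S.r x * t) * d) t := (hexp t).mul hd1
            rw [hdd.deriv]
            have := Real.exp_pos (S.r x * t)
            nlinarith
        have h8 := hanti ⟨le_refl 0, hT⟩ ht ht.1
        simp only [mul_zero, Real.exp_zero, one_mul] at h8
        have h9 : y 0 ≤ 0 := by
          simp only [hy]
          have h1 := h0 x hx
          have h2 : 0 ≤ B' * (Real.exp (b * 0) * φ x / M + Real.exp (2 * M * 0) * (1 / 2) ^ (n + 1)) := by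
            have := hG.phi0 x
            positivity
          linarith
        have h10 : y t ≤ 0 := by
          have h11 := Real.exp_pos (S.r x * t)
          by_contra hcon
          push Not at hcon
          have := mul_pos h11 hcon
          linarith
        simp only [hy] at h10
        linarith
  intro x hx t ht
  have h1 : ∀ M : ℝ, 0 < M → w t x ≤ B' * (Real.exp (b * t) * φ x / M) := by
    intro M hM
    have hl : Tendsto (fun n : ℕ => B' * (Real.exp (b * t) * φ x / M + Real.exp (2 * M * t) * (1 / 2) ^ n)) atTop
        (𝓝 (B' * (Real.exp (b * t) * φ x / M + Real.exp (2 * M * t) * 0))) :=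
      ((tendsto_const_nhds.add ((tendsto_pow_atTop_nhds_zero_of_lt_one (by norm_num) (by norm_num)).const_mul
        _)).const_mul _)
    rw [mul_zero, add_zero] at hl
    exact ge_of_tendsto' hl fun n => key M hM n x hx t ht
  have h2 : Tendsto (fun M : ℝ => B' * (Real.exp (b * t) * φ x / M)) atTop (𝓝 (B' * 0)) :=
    (tendsto_const_nhds.div_atTop tendsto_id).const_mul _
  rw [mul_zero] at h2
  exact ge_of_tendsto h2 ((eventually_gt_atTop 0).mono fun M hM => h1 M hM)

end Pool.Agent.D0H84.UR
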