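import Pool.Agent.D0H84.UR.Hm

/-! Project UR (helper96), module VV: the variance function. -/

set_option autoImplicit false

open Filter Topology Set

namespace Pool.Agent.D0H84.UR

open Pool.Agent.D0H96.UR

theorem av_cont (h : S_HK) (c : ℤ →₀ ℝ) (k : ℤ) : Continuous fun t => av c t k := by
  unfold av
  refine Continuous.mul (by fun_prop) (continuous_finsetSum _ fun j _ => continuous_const.mul ?_)
  exact continuous_iff_continuousAt.2 fun t => (h.1 t (k - j)).continuousAt

theorem av_bound (h : S_HK) (c : ℤ →₀ ℝ) (t : ℝ) (ht : 0 ≤ t) (k : ℤ) :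
    |av c t k| ≤ Real.exp (2 * t) * ∑ j ∈ c.support, |c j| := by
  unfold av
  rw [abs_mul, abs_of_pos (Real.exp_pos _)]
  refine mul_le_mul_of_nonneg_left ?_ (Real.exp_pos _).le
  refine (Finset.abs_sum_le_sum_abs _ _).trans (Finset.sum_le_sum fun j _ => ?_)
  rw [abs_mul]
  have := h.2.2.1 t (k - j) ht
  nlinarith [abs_nonneg (c j)]

theorem t_VV : S_HK → S_EX → S_VV := by
  intro hHK hEX c
  obtain ⟨C, hC⟩ : ∃ C : ℝ, C = ∑ j ∈ c.support, |c j| := ⟨_, rfl⟩
  have hC0 : 0 ≤ C := by rw [hC]; exact Finset.sum_nonneg fun _ _ => abs_nonneg _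
  have hG : ∀ (t : ℝ) (x : ℤ), 0 ≤ t → |(av c t (x - 1) + av c t (x + 1)) ^ 2| ≤ 4 * C ^ 2 * Real.exp (4 * t) := by
    intro t x ht
    rw [abs_pow, abs_of_nonneg (sq_nonneg _ : (0 : ℝ) ≤ |av c t (x - 1) + av c t (x + 1)| ^ 2) |>.symm]
    have h1 := av_bound hHK c t ht (x - 1)
    have h2 := av_bound hHK c t ht (x + 1)
    rw [← hC] at h1 h2
    have h3 : |av c t (x - 1) + av c t (x + 1)| ≤ 2 * (Real.exp (2 * t) * C) :=
      (abs_add_le _ _).trans (by linarith)
    have h4 : Real.exp (4 * t) = Real.exp (2 * t) ^ 2 := by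
      rw [← Real.exp_nat_mul]; congr 1; push_cast; ring
    rw [abs_of_nonneg (sq_nonneg _)]
    calc |av c t (x - 1) + av c t (x + 1)| ^ 2 ≤ (2 * (Real.exp (2 * t) * C)) ^ 2 :=
          pow_le_pow_left₀ (abs_nonneg _) h3 2
      _ = _ := by rw [h4]; ring
  obtain ⟨V, hV0, hVc, hVd, hVb⟩ := hEX ℤ ℤ (SZ 0) (fun _ => 2) 2 2 4 0 (4 * C ^ 2) (fun _ => 0)
    (fun t x => (av c t (x - 1) + av c t (x + 1)) ^ 2) (growZ 0 le_rfl) (by norm_num) (by norm_num) le_rfl
    (by positivity) (fun x => by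
      have : ((SZ 0).mv x).card = 2 := Finset.card_pair (by norm_num)
      rw [this]
      show ((2 : ℕ) : ℝ) ≤ 0 + 2
      norm_num) (fun x => by simp) (fun x => ((av_cont hHK c _).add (av_cont hHK c _)).pow 2) (fun t x ht => hG t x ht)
  have hVd' : ∀ k t, 0 < t → HasDerivAt (fun t => V t k)
      (V t (k - 1) + V t (k + 1) + (av c t (k - 1) + av c t (k + 1)) ^ 2) t := by
    intro k t ht
    have := hVd k t ht
    rw [rhsZ, zero_mul, sub_zero, add_comm (V t (k + 1))] at this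
    exact this
  have hVb' : ∀ T : ℝ, ∀ t ∈ Icc 0 T, ∀ k, |V t k| ≤ 4 * C ^ 2 * T * Real.exp (6 * T) := by
    intro T t ht k
    refine (hVb k t ht.1).trans ?_
    rw [zero_add]
    have h1 : Real.exp ((2 + 4) * t) ≤ Real.exp (6 * T) := by
      apply Real.exp_le_exp.2
      have := ht.2
      linarith
    have h2 : 4 * C ^ 2 * t ≤ 4 * C ^ 2 * T := mul_le_mul_of_nonneg_left ht.2 (by positivity)
    have h3 : 0 ≤ 4 * C ^ 2 * T := by
      have := ht.1.trans ht.2
      positivity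
    exact mul_le_mul h2 h1 (Real.exp_pos _).le h3
  have hVn : ∀ t k, 0 ≤ t → 0 ≤ V t k := by
    intro t k ht
    have := t_MP ℤ ℤ (SZ 0) (fun _ => 2) 2 univ t (4 * C ^ 2 * t * Real.exp (6 * t)) (fun s k => -V s k)
      (growZ 0 le_rfl) (fun _ _ _ _ => mem_univ _) ht
      (fun x _ => ((hVc x).mono fun s hs => hs.1).neg)
      (fun x _ s hs => ⟨_, (hVd' x s hs.1).neg, by
        rw [rhsZ]
        have := sq_nonneg (av c s (x - 1) + av c s (x + 1))
        linarith⟩)
      (fun x _ s hs => by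
        have := (abs_le.1 (hVb' t s hs x)).1
        linarith) (fun x _ => by rw [hV0]; norm_num) k (mem_univ _) t ⟨ht, le_refl _⟩
    linarith
  refine ⟨V, hV0, hVn, hVc, hVd', ?_⟩
  intro v v' T hT hv0 hvd hvs F
  -- `v` is bounded below
  have hvc : ContinuousOn v (Icc 0 T) := fun t ht => (hvd t ht).continuousAt.continuousWithinAt
  obtain ⟨B, hB⟩ := (isCompact_Icc.bddBelow_image hvc)
  have hBv : ∀ t ∈ Icc 0 T, B ≤ v t := fun t ht => hB (mem_image_of_mem _ ht)
  have := t_MP (Finset ℤ) ℤ (SF 0) (fun _ => 2) 2 {G | G.card = F.card} T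
    (F.card * (4 * C ^ 2 * T * Real.exp (6 * T)) - B) (fun s G => ∑ k ∈ G, V s k - v s)
    (growF 0 le_rfl)
    (fun G hG s _ => by
      show (G.map _).card = F.card
      rw [Finset.card_map]; exact hG) hT
    (fun G _ => (continuousOn_finsetSum _ fun k _ => (hVc k).mono fun s hs => hs.1).sub hvc)
    (fun G _ s hs => ⟨_, (HasDerivAt.fun_sum fun k _ => hVd' k s hs.1).sub (hvd s ⟨hs.1.le, hs.2.le⟩), by
      rw [rhsF, Finset.sum_map, Finset.sum_map]
      simp only [Equiv.coe_toEmbedding, Equiv.coe_addRight]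
      rw [Finset.sum_add_distrib, Finset.sum_add_distrib]
      have := hvs s ⟨hs.1.le, hs.2.le⟩ G
      simp only [← sub_eq_add_neg]
      linarith⟩)
    (fun G hG s hs => by
      have h4 : ∑ k ∈ G, V s k ≤ ∑ k ∈ G, (4 * C ^ 2 * T * Real.exp (6 * T)) :=
        Finset.sum_le_sum fun k _ => (abs_le.1 (hVb' T s hs k)).2
      rw [Finset.sum_const, nsmul_eq_mul, show G.card = F.card from hG] at h4
      have := hBv s hs
      linarith) (fun G _ => by
        simp only [hV0, Finset.sum_const_zero]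
        linarith) F (rfl : F.card = F.card) T ⟨hT, le_refl _⟩
  linarith

end Pool.Agent.D0H84.UR
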